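import Pool.Agent.U924.Pc.Sol

/-!
# The pairwise coupling ratio for `|x - y|^q` on the line stays bounded as `q → 1⁻`

For every `q` with `1/2 ≤ q < 1` the optimal pairwise coupling ratio of `𝒫(ℝ)` for the cost
`|x - y|^q` is at most `144`.  Together with the known bound `10.55/(1-q)` (used for `q ≤ 1/2`)
and the quantile coupling (`q ≥ 1`) this gives a finite bound for all `q > 0`.
-/

set_option autoImplicit false

open MeasureTheory Pool.Agent.R972.PC
open scoped ENNReal

theorem Pool.Agent.Results.MP_ee92c9_pr.UniformRatio.result :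
    ∀ q : ℝ, 1 / 2 ≤ q → q < 1 → optRatio q ≤ (144 : ℝ≥0∞) :=
  fun _ hq hq1 => Pool.Agent.U924.PC.optRatio_le hq hq1
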